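import Pool.Agent.Work.MP_db9399_bg.Base
import Pool.Agent.Work.MP_db9399_lc.Interface
import Pool.Agent.Work.MP_db9399_lu_helper6.LEMU

/-!
# THEOREM LC, block ASM: the total colouring from the matchings and LEMU (adapted from helper90)
-/

set_option autoImplicit false

namespace Pool.Agent.Work.MP_db9399_lc.helper6.ASM

open Finset Classical
open Pool.Agent.Work.MP_db9399_bg (mem_nb mem_c3 not_rs_of_inW inW LabP Lbl c3f c3 rs eR Ix NDec
  VCol UW Rg Jk Ub HPre Vc Spr)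
open Pool.Agent.Work.MP_db9399_all (nb)
open Pool.Agent.Work.MP_db9399_px (LWalk hit ee)
open Pool.Agent.Work.MP_db9399_dn (NB IsMat Tot)

universe u

/-! ## The general statement -/

section general
variable {V : Type u} [Fintype V]

/-- the graph of the remaining edges -/
def rest {β : Type} (G : SimpleGraph V) (M : β → SimpleGraph V) : SimpleGraph V where
  Adj x y := G.Adj x y ∧ ∀ b, ¬ (M b).Adj x y
  symm := ⟨fun _ _ h => ⟨h.1.symm, fun b hb => h.2 b hb.symm⟩⟩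
  loopless := ⟨fun x h => G.loopless.irrefl x h.1⟩

/-- degrees in the rest: every covering matching takes away one -/
theorem rest_deg {β : Type} {G : SimpleGraph V} {M : β → SimpleGraph V}
    (hle : ∀ b v w, (M b).Adj v w → G.Adj v w)
    (hd : ∀ b b', b ≠ b' → ∀ v w, (M b).Adj v w → ¬ (M b').Adj v w) (v : V) (S : Finset β)
    (hS : ∀ b ∈ S, (nb (M b) v).Nonempty) :
    (nb (rest G M) v).card + S.card ≤ (nb G v).card := by
  have hdisj : ∀ b ∈ S, ∀ b' ∈ S, b ≠ b' → Disjoint (nb (M b) v) (nb (M b') v) := by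
    intro b _ b' _ hbb
    rw [Finset.disjoint_left]
    intro w hw hw'
    exact hd b b' hbb v w (mem_nb.mp hw) (mem_nb.mp hw')
  have h1 : S.card ≤ (S.biUnion (fun b => nb (M b) v)).card := by
    rw [Finset.card_biUnion hdisj]
    calc S.card = ∑ _b ∈ S, 1 := by simp
      _ ≤ ∑ b ∈ S, (nb (M b) v).card :=
        Finset.sum_le_sum fun b hb => Finset.card_pos.mpr (hS b hb)
  have h2 : Disjoint (nb (rest G M) v) (S.biUnion (fun b => nb (M b) v)) := by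
    rw [Finset.disjoint_left]
    intro w hw hw'
    obtain ⟨b, _, hb⟩ := Finset.mem_biUnion.mp hw'
    exact (mem_nb.mp hw).2 b (mem_nb.mp hb)
  have h3 : nb (rest G M) v ∪ S.biUnion (fun b => nb (M b) v) ⊆ nb G v := by
    intro w hw
    rcases Finset.mem_union.mp hw with h | h
    · exact mem_nb.mpr (mem_nb.mp h).1
    · obtain ⟨b, _, hb⟩ := Finset.mem_biUnion.mp h
      exact mem_nb.mpr (hle b v w (mem_nb.mp hb))
  have h4 := Finset.card_le_card h3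
  rw [Finset.card_union_of_disjoint h2] at h4
  omega

/-- total colouring from disjoint matchings `M b`, `b ∈ Pal`, which cover almost everything -/
theorem core_asm {k d : ℕ} (G : SimpleGraph V) (c : V → Fin k) (Pal : Finset (Fin k))
    (W X Y : Finset V) (M : Fin k → SimpleGraph V)
    (hdeg : ∀ v, (nb G v).card ≤ d) (hdk : d + 2 ≤ k)
    (hcadj : ∀ v w, G.Adj v w → c v ≠ c w) (hcPal : ∀ v, c v ∈ Pal)
    (hle : ∀ b v w, (M b).Adj v w → G.Adj v w)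
    (hMpal : ∀ b v w, (M b).Adj v w → b ∈ Pal) (hmat : ∀ b, IsMat (M b))
    (hd : ∀ b b', b ≠ b' → ∀ v w, (M b).Adj v w → ¬ (M b').Adj v w)
    (hc : ∀ b v w, (M b).Adj v w → c v ≠ b)
    (hcov : ∀ v, v ∉ W → ∀ b ∈ Pal, b ≠ c v → (nb (M b) v).Nonempty)
    (hcovW : ∀ v ∈ W, ∃ b0, ∀ b ∈ Pal, b ≠ c v → b ≠ b0 → (nb (M b) v).Nonempty)
    (hXY : Disjoint X Y)
    (hXX : ∀ v ∈ X, ∀ w ∈ X, G.Adj v w → ∃ b, (M b).Adj v w)
    (hYY : ∀ v ∈ Y, ∀ w ∈ Y, G.Adj v w → ∃ b, (M b).Adj v w)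
    (hBW : ∀ v w, G.Adj v w → v ∉ X → v ∉ Y → w ∈ W → ∃ b, (M b).Adj v w) :
    ∃ t : V → V → Fin k, Tot G c t ∧ ∀ b v w, (M b).Adj v w → t v w = b := by
  have hk : 0 < k := by omega
  have hPk : Pal.card ≤ k := by
    have := Finset.card_le_univ Pal
    rwa [Fintype.card_fin] at this
  set κ : ℕ := k - Pal.card with hκ
  have hd1 : ∀ v, v ∉ W → (nb (rest G M) v).card + 1 ≤ κ := by
    intro v hv
    have h1 := rest_deg hle hd v (Pal.erase (c v)) (by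
      intro b hb
      rw [Finset.mem_erase] at hb
      exact hcov v hv b hb.2 hb.1)
    rw [Finset.card_erase_of_mem (hcPal v)] at h1
    have h2 : 0 < Pal.card := Finset.card_pos.mpr ⟨_, hcPal v⟩
    have h3 := hdeg v
    omega
  have hd2 : ∀ v ∈ W, (nb (rest G M) v).card ≤ κ := by
    intro v hv
    obtain ⟨b0, hb0⟩ := hcovW v hv
    have h1 := rest_deg hle hd v ((Pal.erase (c v)).erase b0) (by
      intro b hb
      rw [Finset.mem_erase, Finset.mem_erase] at hb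
      exact hb0 b hb.2.2 hb.2.1 hb.1)
    have h4 : (Pal.erase (c v)).card ≤ ((Pal.erase (c v)).erase b0).card + 1 :=
      Nat.le_add_of_sub_le Finset.pred_card_le_card_erase
    rw [Finset.card_erase_of_mem (hcPal v)] at h4
    have h2 : 0 < Pal.card := Finset.card_pos.mpr ⟨_, hcPal v⟩
    have h3 := hdeg v
    omega
  have hd0 : ∀ v, (nb (rest G M) v).card ≤ κ := by
    intro v
    by_cases hv : v ∈ W
    · exact hd2 v hv
    · have := hd1 v hv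
      omega
  obtain ⟨t', hsym, hlt, hinj⟩ :=
    Pool.Agent.Work.MP_db9399_lu.stmt_LEMU (rest G M) κ X Y hXY hd0
      (fun v hv w hw h => by
        obtain ⟨b, hb⟩ := hXX v hv w hw h.1
        exact h.2 b hb)
      (fun v hv w hw h => by
        obtain ⟨b, hb⟩ := hYY v hv w hw h.1
        exact h.2 b hb)
      (fun v w h hvX hvY => hd1 w (fun hw => by
        obtain ⟨b, hb⟩ := hBW v w h.1 hvX hvY hw
        exact h.2 b hb))
  -- the colours outside the palette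
  have hcard : (univ \ Pal : Finset (Fin k)).card = κ := by
    rw [Finset.card_sdiff_of_subset (Finset.subset_univ _), Finset.card_univ, Fintype.card_fin]
  set φ : ℕ → Fin k := fun i => if h : i < κ then
    (((univ \ Pal).equivFinOfCardEq hcard).symm ⟨i, h⟩ : Fin k) else ⟨0, hk⟩ with hφ
  have hφP : ∀ i, i < κ → φ i ∉ Pal := by
    intro i hi
    simp only [hφ, dif_pos hi]
    exact (Finset.mem_sdiff.mp (((univ \ Pal).equivFinOfCardEq hcard).symm ⟨i, hi⟩).2).2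
  have hφI : ∀ i j, i < κ → j < κ → φ i = φ j → i = j := by
    intro i j hi hj h
    simp only [hφ, dif_pos hi, dif_pos hj] at h
    have := ((univ \ Pal).equivFinOfCardEq hcard).symm.injective (Subtype.ext h)
    simpa using this
  -- the colouring of the edges
  set t : V → V → Fin k := fun v w => if h : ∃ b, (M b).Adj v w then h.choose else
    φ (t' v w) with ht
  have huniq : ∀ v w b b', (M b).Adj v w → (M b').Adj v w → b = b' := by
    intro v w b b' h h'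
    by_contra hne
    exact hd b b' hne v w h h'
  have htM : ∀ v w b, (M b).Adj v w → t v w = b := by
    intro v w b h
    have he : ∃ b, (M b).Adj v w := ⟨b, h⟩
    simp only [ht, dif_pos he]
    exact huniq v w _ _ he.choose_spec h
  have htR : ∀ v w, (¬ ∃ b, (M b).Adj v w) → t v w = φ (t' v w) := by
    intro v w h
    simp only [ht, dif_neg h]
  refine ⟨t, ⟨hcadj, ?_, ?_, ?_⟩, fun b v w h => htM v w b h⟩
  · intro v w
    by_cases h : ∃ b, (M b).Adj v w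
    · obtain ⟨b, hb⟩ := h
      rw [htM v w b hb, htM w v b hb.symm]
    · have h' : ¬ ∃ b, (M b).Adj w v := fun ⟨b, hb⟩ => h ⟨b, hb.symm⟩
      rw [htR v w h, htR w v h', hsym]
  · intro v y hy z hz hyz
    have hy' : G.Adj v y := mem_nb.mp hy
    have hz' : G.Adj v z := mem_nb.mp hz
    by_cases h1 : ∃ b, (M b).Adj v y
    · obtain ⟨b, hb⟩ := h1
      rw [htM v y b hb] at hyz
      by_cases h2 : ∃ b, (M b).Adj v z
      · obtain ⟨b', hb'⟩ := h2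
        rw [htM v z b' hb'] at hyz
        subst hyz
        exact Finset.card_le_one.mp (hmat b v) y (mem_nb.mpr hb) z (mem_nb.mpr hb')
      · rw [htR v z h2] at hyz
        have hz2 : (rest G M).Adj v z := ⟨hz', fun b' hb' => h2 ⟨b', hb'⟩⟩
        exact absurd (hyz ▸ hMpal b v y hb) (hφP _ (hlt v z hz2))
    · have hy2 : (rest G M).Adj v y := ⟨hy', fun b' hb' => h1 ⟨b', hb'⟩⟩
      rw [htR v y h1] at hyz
      by_cases h2 : ∃ b, (M b).Adj v z
      · obtain ⟨b', hb'⟩ := h2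
        rw [htM v z b' hb'] at hyz
        exact absurd (hyz ▸ hMpal b' v z hb') (hφP _ (hlt v y hy2))
      · rw [htR v z h2] at hyz
        have hz2 : (rest G M).Adj v z := ⟨hz', fun b' hb' => h2 ⟨b', hb'⟩⟩
        exact hinj v (mem_nb.mpr hy2) (mem_nb.mpr hz2) (hφI _ _ (hlt v y hy2) (hlt v z hz2) hyz)
  · intro v w hvw
    by_cases h : ∃ b, (M b).Adj v w
    · obtain ⟨b, hb⟩ := h
      rw [htM v w b hb]
      exact (hc b v w hb).symm
    · have h2 : (rest G M).Adj v w := ⟨hvw, fun b' hb' => h ⟨b', hb'⟩⟩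
      rw [htR v w h]
      intro he
      exact hφP _ (hlt v w h2) (he ▸ hcPal v)

end general

/-! ## The matchings -/

section mats
variable {V : Type u} [Fintype V] {l m r K K1 k w w1 d : ℕ} {g δ : ℝ} {G : SimpleGraph V}
  {UH : Finset V} {c0 : V → Fin k} {EH : SimpleGraph V} {tu : V → Fin k}
  {lab : V → Lbl l m r K K1} {e : Ix m w → Fin k}
  {e1 : Fin (K1 + 1) × Fin (K1 + 1) × Fin w1 → Fin k} {pal : Fin m × Fin w → Fin (r + 1)}
  {c : V → Fin k} {wv : V → Fin k → V} {Nd M : Ix m w → SimpleGraph V}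
  {O : Ix m w → Finset V} {Kk M1 : Fin (K1 + 1) × Fin (K1 + 1) × Fin w1 → SimpleGraph V}
  {O1 : Fin (K1 + 1) × Fin (K1 + 1) × Fin w1 → Finset V}

/-- the pair `u`, `v` is one of the pairs `u`, `wv u b` -/
def US (UH : Finset V) (c0 tu : V → Fin k) (wv : V → Fin k → V) (b : Fin k) (x y : V) : Prop :=
  x ∈ UH ∧ b ≠ c0 x ∧ b ≠ tu x ∧ wv x b = y

theorem mem_UW {b : Fin k} {v : V} : v ∈ UW UH c0 tu wv b ↔ ∃ x, US UH c0 tu wv b x v := by
  unfold UW US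
  rw [Finset.mem_filter]
  constructor
  · rintro ⟨_, x, h1, h2, h3, h4⟩
    exact ⟨x, h1, h2, h3, h4⟩
  · rintro ⟨x, h1, h2, h3, h4⟩
    exact ⟨Finset.mem_univ _, x, h1, h2, h3, h4⟩

/-- the adjacency in the matching of the colour `b` -/
def MA (UH : Finset V) (c0 tu : V → Fin k) (EH : SimpleGraph V) (e : Ix m w → Fin k)
    (e1 : Fin (K1 + 1) × Fin (K1 + 1) × Fin w1 → Fin k) (wv : V → Fin k → V)
    (Nd M : Ix m w → SimpleGraph V)
    (Kk M1 : Fin (K1 + 1) × Fin (K1 + 1) × Fin w1 → SimpleGraph V) (b : Fin k)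
    (x y : V) : Prop :=
  (∃ i, e i = b ∧ ((Nd i).Adj x y ∨ (M i).Adj x y ∨ US UH c0 tu wv b x y ∨
      US UH c0 tu wv b y x ∨ (EH.Adj x y ∧ tu x = b))) ∨
    ∃ j, e1 j = b ∧ ((Kk j).Adj x y ∨ (M1 j).Adj x y ∨ US UH c0 tu wv b x y ∨
      US UH c0 tu wv b y x)

theorem MA_symm (hH : HPre G UH c0 EH tu) {b : Fin k} {x y : V}
    (h : MA UH c0 tu EH e e1 wv Nd M Kk M1 b x y) :
    MA UH c0 tu EH e e1 wv Nd M Kk M1 b y x := by
  rcases h with ⟨i, hi, h⟩ | ⟨j, hj, h⟩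
  · refine Or.inl ⟨i, hi, ?_⟩
    rcases h with h | h | h | h | h
    · exact Or.inl h.symm
    · exact Or.inr (Or.inl h.symm)
    · exact Or.inr (Or.inr (Or.inr (Or.inl h)))
    · exact Or.inr (Or.inr (Or.inl h))
    · exact Or.inr (Or.inr (Or.inr (Or.inr ⟨h.1.symm, by rw [← hH.tt _ _ h.1]; exact h.2⟩)))
  · refine Or.inr ⟨j, hj, ?_⟩
    rcases h with h | h | h | h
    · exact Or.inl h.symm
    · exact Or.inr (Or.inl h.symm)
    · exact Or.inr (Or.inr (Or.inr h))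
    · exact Or.inr (Or.inr (Or.inl h))


theorem UHe {e : Ix m w → Fin k} {e1 : Fin (K1 + 1) × Fin (K1 + 1) × Fin w1 → Fin k}
    {i : Ix m w} {b : Fin k} (h : e i = b) : b ∈ Set.range e ∨ b ∈ Set.range e1 :=
  Or.inl ⟨i, h⟩

theorem UHe1 {e : Ix m w → Fin k} {e1 : Fin (K1 + 1) × Fin (K1 + 1) × Fin w1 → Fin k}
    {j : Fin (K1 + 1) × Fin (K1 + 1) × Fin w1} {b : Fin k} (h : e1 j = b) :
    b ∈ Set.range e ∨ b ∈ Set.range e1 :=
  Or.inr ⟨j, h⟩

/-- facts about the partners -/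
theorem US_fact (hU : UPar G d δ UH c0 tu lab e e1 c wv) {b : Fin k} {x y : V}
    (hb : b ∈ Set.range e ∨ b ∈ Set.range e1) (h : US UH c0 tu wv b x y) :
    G.Adj x y ∧ y ∉ UH ∧ c y ≠ b := by
  obtain ⟨h1, h2, h3, h4⟩ := h
  have := hU.adj x h1 b h2 h3 hb
  rwa [h4] at this

omit [Fintype V] in
theorem US_left {b : Fin k} {x y y' : V}
    (h : US UH c0 tu wv b x y) (h' : US UH c0 tu wv b x y') : y = y' := by
  rw [← h.2.2.2, h'.2.2.2]

theorem US_right (hU : UPar G d δ UH c0 tu lab e e1 c wv) {b : Fin k} {x x' y : V}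
    (hb : b ∈ Set.range e ∨ b ∈ Set.range e1)
    (h : US UH c0 tu wv b x y) (h' : US UH c0 tu wv b x' y) : x = x' :=
  hU.inj2 x h.1 x' h'.1 b h.2.1 h.2.2.1 h'.2.1 h'.2.2.1 hb (by rw [h.2.2.2, h'.2.2.2])

theorem US_col (hU : UPar G d δ UH c0 tu lab e e1 c wv) {b b' : Fin k} {x y : V}
    (hb : b ∈ Set.range e ∨ b ∈ Set.range e1) (hb' : b' ∈ Set.range e ∨ b' ∈ Set.range e1)
    (h : US UH c0 tu wv b x y) (h' : US UH c0 tu wv b' x y) : b = b' :=
  hU.inj x h.1 b b' h.2.1 h.2.2.1 h'.2.1 h'.2.2.1 hb hb' (by rw [h.2.2.2, h'.2.2.2])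

/-- all edges are edges of `G` -/
theorem MA_le (hH : HPre G UH c0 EH tu) (hU : UPar G d δ UH c0 tu lab e e1 c wv)
    (hN : NDec G UH lab Nd) (hP : P0R g G d UH c0 tu lab e c wv Nd M O)
    (hL : Lft G UH lab Nd Kk) (hE : PeR G UH c0 tu lab e1 wv Kk M O M1 O1) {b : Fin k} {x y : V}
    (h : MA UH c0 tu EH e e1 wv Nd M Kk M1 b x y) : G.Adj x y := by
  rcases h with ⟨i, hi, h⟩ | ⟨j, hj, h⟩
  · rcases h with h | h | h | h | h
    · exact hN.le i h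
    · exact (hP.le i _ _ h).1.1
    · exact (US_fact hU (UHe hi) h).1
    · exact (US_fact hU (UHe hi) h).1.symm
    · exact hH.EG h.1
  · rcases h with h | h | h | h
    · exact hL.le j h
    · exact (hE.le j _ _ h).1.1
    · exact (US_fact hU (UHe1 hj) h).1
    · exact (US_fact hU (UHe1 hj) h).1.symm

theorem nb_ne {F : SimpleGraph V} {x y : V} (h : F.Adj x y) : (nb F x).Nonempty :=
  ⟨y, mem_nb.mpr h⟩

theorem mat_eq {F : SimpleGraph V} (hF : IsMat F) {x y z : V} (h : F.Adj x y) (h' : F.Adj x z) :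
    y = z :=
  Finset.card_le_one.mp (hF x) y (mem_nb.mpr h) z (mem_nb.mpr h')

theorem mem_Ub {i : Ix m w} {x : V} : x ∈ Ub UH c0 tu lab e c wv Nd i ↔
    (x ∉ UH ∧ (lab x).1 ∈ c3 i.1 i.2.1 ∧ c x ≠ e i ∧ x ∉ UW UH c0 tu wv (e i)) ∨
      (x ∉ UH ∧ (lab x).1 ∉ c3 i.1 i.2.1 ∧ ¬ (nb (Nd i) x).Nonempty) := by
  unfold Ub Jk
  rw [Finset.mem_filter, Finset.mem_filter]
  simp only [Finset.mem_univ, true_and]

/-- the cell of a partner -/
theorem US_cel (hU : UPar G d δ UH c0 tu lab e e1 c wv) {i : Ix m w} {x y : V}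
    (h : US UH c0 tu wv (e i) x y) : (lab y).1 ∈ c3 i.1 i.2.1 := by
  have := hU.cel x h.1 i h.2.1 h.2.2.1
  rwa [h.2.2.2] at this

/-- the label of a partner -/
theorem US_lam (hU : UPar G d δ UH c0 tu lab e e1 c wv)
    {j : Fin (K1 + 1) × Fin (K1 + 1) × Fin w1} {x y : V}
    (h : US UH c0 tu wv (e1 j) x y) :
    ¬ ((lab y).2.2.2.2.2 = j.1 ∨ (lab y).2.2.2.2.2 = j.2.1) := by
  have := hU.spl x h.1 j h.2.1 h.2.2.1
  rw [h.2.2.2] at this
  exact fun h2 => h2.elim this.2.1 this.2.2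

/-- type of a vertex of an edge of the colour `e i` -/
theorem typ_e (hH : HPre G UH c0 EH tu) (hU : UPar G d δ UH c0 tu lab e e1 c wv)
    (hN : NDec G UH lab Nd) (hP : P0R g G d UH c0 tu lab e c wv Nd M O) {i : Ix m w} {x y : V}
    (h : (Nd i).Adj x y ∨ (M i).Adj x y ∨ US UH c0 tu wv (e i) x y ∨
      US UH c0 tu wv (e i) y x ∨ (EH.Adj x y ∧ tu x = e i)) :
    ((Nd i).Adj x y ∧ x ∉ UH ∧ y ∉ UH ∧ (lab x).1 ∉ c3 i.1 i.2.1 ∧ (nb (Nd i) x).Nonempty ∧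
        ¬ rs (lab x).2.1 (lab y).2.1) ∨
      ((M i).Adj x y ∧ x ∉ UH ∧ y ∉ UH ∧ ((lab x).1 ∈ c3 i.1 i.2.1 → x ∉ UW UH c0 tu wv (e i)) ∧
        ((lab x).1 ∉ c3 i.1 i.2.1 → ¬ (nb (Nd i) x).Nonempty) ∧
        rs (lab x).2.1 (lab y).2.1 ∧ ((lab x).1 ∈ c3 i.1 i.2.1 → c x ≠ e i)) ∨
      (US UH c0 tu wv (e i) x y ∧ x ∈ UH ∧ y ∉ UH ∧ e i ≠ tu x ∧ e i ≠ c0 x) ∨
      (US UH c0 tu wv (e i) y x ∧ x ∉ UH ∧ y ∈ UH ∧ (lab x).1 ∈ c3 i.1 i.2.1 ∧
        x ∈ UW UH c0 tu wv (e i)) ∨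
      (EH.Adj x y ∧ tu x = e i ∧ x ∈ UH ∧ y ∈ UH) := by
  rcases h with h | h | h | h | h
  · have h1 := hN.adj i _ _ h
    have h2 := hN.adj i _ _ h.symm
    exact Or.inl ⟨h, h1.1, h2.1, h1.2.1, nb_ne h, h1.2.2.2⟩
  · have h1 := hP.le i _ _ h
    refine Or.inr (Or.inl ⟨h, h1.1.2.1, h1.1.2.2.1, ?_, ?_, h1.1.2.2.2.2, ?_⟩)
    · intro hc
      rcases mem_Ub.mp h1.2 with h3 | h3
      · exact h3.2.2.2
      · exact absurd hc h3.2.1
    · intro hc
      rcases mem_Ub.mp h1.2 with h3 | h3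
      · exact absurd h3.2.1 hc
      · exact h3.2.2
    · intro hc
      rcases mem_Ub.mp h1.2 with h3 | h3
      · exact h3.2.2.1
      · exact absurd hc h3.2.1
  · exact Or.inr (Or.inr (Or.inl ⟨h, h.1, (US_fact hU (UHe rfl) h).2.1, h.2.2.1, h.2.1⟩))
  · exact Or.inr (Or.inr (Or.inr (Or.inl ⟨h, (US_fact hU (UHe rfl) h).2.1, h.1, US_cel hU h,
      mem_UW.mpr ⟨y, h⟩⟩)))
  · exact Or.inr (Or.inr (Or.inr (Or.inr ⟨h.1, h.2, hH.EU _ _ h.1, hH.EU _ _ h.1.symm⟩)))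

/-- type of a vertex of an edge of the colour `e1 j` -/
theorem typ_e1 (hU : UPar G d δ UH c0 tu lab e e1 c wv)
    (hL : Lft G UH lab Nd Kk) (hE : PeR G UH c0 tu lab e1 wv Kk M O M1 O1)
    {j : Fin (K1 + 1) × Fin (K1 + 1) × Fin w1} {x y : V}
    (h : (Kk j).Adj x y ∨ (M1 j).Adj x y ∨ US UH c0 tu wv (e1 j) x y ∨
      US UH c0 tu wv (e1 j) y x) :
    ((Kk j).Adj x y ∧ x ∉ UH ∧ y ∉ UH ∧ ((lab x).2.2.2.2.2 = j.1 ∨ (lab x).2.2.2.2.2 = j.2.1) ∧
        ¬ (Rg G UH lab).Adj x y ∧ (nb (Kk j) x).Nonempty) ∨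
      ((M1 j).Adj x y ∧ x ∉ UH ∧ y ∉ UH ∧ rs (lab x).2.1 (lab y).2.1 ∧
        ¬ (nb (Kk j) x).Nonempty ∧ x ∉ UW UH c0 tu wv (e1 j)) ∨
      (US UH c0 tu wv (e1 j) x y ∧ x ∈ UH ∧ y ∉ UH) ∨
      (US UH c0 tu wv (e1 j) y x ∧ x ∉ UH ∧ y ∈ UH ∧
        ¬ ((lab x).2.2.2.2.2 = j.1 ∨ (lab x).2.2.2.2.2 = j.2.1) ∧
        x ∈ UW UH c0 tu wv (e1 j)) := by
  rcases h with h | h | h | h
  · have h1 := hL.mem j _ _ h
    have h2 := hL.mem j _ _ h.symm
    exact Or.inl ⟨h, h1.1, h2.1, h1.2.2, h1.2.1, nb_ne h⟩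
  · have h1 := hE.le j _ _ h
    exact Or.inr (Or.inl ⟨h, h1.1.2.1, h1.1.2.2.1, h1.1.2.2.2.2, h1.2.2, h1.2.1⟩)
  · exact Or.inr (Or.inr (Or.inl ⟨h, h.1, (US_fact hU (UHe1 rfl) h).2.1⟩))
  · exact Or.inr (Or.inr (Or.inr ⟨h, (US_fact hU (UHe1 rfl) h).2.1, h.1, US_lam hU h,
      mem_UW.mpr ⟨y, h⟩⟩))

/-- uniqueness for the colours `e i` -/
theorem uniq_e (hH : HPre G UH c0 EH tu) (hU : UPar G d δ UH c0 tu lab e e1 c wv)
    (hN : NDec G UH lab Nd) (hP : P0R g G d UH c0 tu lab e c wv Nd M O) {i : Ix m w} {x y z : V}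
    (h : (Nd i).Adj x y ∨ (M i).Adj x y ∨ US UH c0 tu wv (e i) x y ∨
      US UH c0 tu wv (e i) y x ∨ (EH.Adj x y ∧ tu x = e i))
    (h' : (Nd i).Adj x z ∨ (M i).Adj x z ∨ US UH c0 tu wv (e i) x z ∨
      US UH c0 tu wv (e i) z x ∨ (EH.Adj x z ∧ tu x = e i)) : y = z := by
  have t1 := typ_e hH hU hN hP h
  have t2 := typ_e hH hU hN hP h'
  clear h h'
  rcases t1 with ⟨h, a1, a2, a3, a4, a5⟩ | ⟨h, a1, a2, a3, a4, a5, a6⟩ | ⟨h, a1, a2, a3, a4⟩ |
    ⟨h, a1, a2, a3, a4⟩ | ⟨h, a1, a2, a3⟩ <;>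
  rcases t2 with ⟨h', b1, b2, b3, b4, b5⟩ | ⟨h', b1, b2, b3, b4, b5, b6⟩ | ⟨h', b1, b2, b3, b4⟩ |
    ⟨h', b1, b2, b3, b4⟩ | ⟨h', b1, b2, b3⟩
  · exact mat_eq (hN.mat i) h h'
  · exact absurd a4 (b4 a3)
  · exact absurd b1 a1
  · exact absurd b3 a3
  · exact absurd b2 a1
  · exact absurd b4 (a4 b3)
  · exact mat_eq (hP.mat i) h h'
  · exact absurd b1 a1
  · exact absurd b4 (a3 b3)
  · exact absurd b2 a1
  · exact absurd a1 b1
  · exact absurd a1 b1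
  · exact US_left h h'
  · exact absurd a1 b1
  · exact absurd b1.symm a3
  · exact absurd a3 b3
  · exact absurd a4 (b3 a3)
  · exact absurd b1 a1
  · exact US_right hU (UHe rfl) h h'
  · exact absurd b2 a1
  · exact absurd a2 b1
  · exact absurd a2 b1
  · exact absurd a1.symm b3
  · exact absurd a2 b1
  · exact mat_eq hH.mat h h'

/-- uniqueness for the colours `e1 j` -/
theorem uniq_e1 (hU : UPar G d δ UH c0 tu lab e e1 c wv)
    (hL : Lft G UH lab Nd Kk) (hE : PeR G UH c0 tu lab e1 wv Kk M O M1 O1)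
    {j : Fin (K1 + 1) × Fin (K1 + 1) × Fin w1} {x y z : V}
    (h : (Kk j).Adj x y ∨ (M1 j).Adj x y ∨ US UH c0 tu wv (e1 j) x y ∨
      US UH c0 tu wv (e1 j) y x)
    (h' : (Kk j).Adj x z ∨ (M1 j).Adj x z ∨ US UH c0 tu wv (e1 j) x z ∨
      US UH c0 tu wv (e1 j) z x) : y = z := by
  have t1 := typ_e1 hU hL hE h
  have t2 := typ_e1 hU hL hE h'
  clear h h'
  rcases t1 with ⟨h, a1, a2, a3, a4, a5⟩ | ⟨h, a1, a2, a3, a4, a5⟩ | ⟨h, a1, a2⟩ |
    ⟨h, a1, a2, a3, a4⟩ <;>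
  rcases t2 with ⟨h', b1, b2, b3, b4, b5⟩ | ⟨h', b1, b2, b3, b4, b5⟩ | ⟨h', b1, b2⟩ |
    ⟨h', b1, b2, b3, b4⟩
  · exact mat_eq (hL.mat j) h h'
  · exact absurd a5 b4
  · exact absurd b1 a1
  · exact absurd a3 b3
  · exact absurd b5 a4
  · exact mat_eq (hE.mat j) h h'
  · exact absurd b1 a1
  · exact absurd b4 a5
  · exact absurd a1 b1
  · exact absurd a1 b1
  · exact US_left h h'
  · exact absurd a1 b1
  · exact absurd b3 a3
  · exact absurd a4 b5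
  · exact absurd b1 a1
  · exact US_right hU (UHe1 rfl) h h'


/-- the colours of an edge are equal -/
theorem MA_col (hH : HPre G UH c0 EH tu) (hU : UPar G d δ UH c0 tu lab e e1 c wv)
    (hN : NDec G UH lab Nd) (hP : P0R g G d UH c0 tu lab e c wv Nd M O)
    (hL : Lft G UH lab Nd Kk) (hE : PeR G UH c0 tu lab e1 wv Kk M O M1 O1) {b b' : Fin k}
    {x y : V} (h : MA UH c0 tu EH e e1 wv Nd M Kk M1 b x y)
    (h' : MA UH c0 tu EH e e1 wv Nd M Kk M1 b' x y) : b = b' := by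
  have key : ∀ {i : Ix m w} {j : Fin (K1 + 1) × Fin (K1 + 1) × Fin w1},
      ((Nd i).Adj x y ∨ (M i).Adj x y ∨ US UH c0 tu wv (e i) x y ∨
        US UH c0 tu wv (e i) y x ∨ (EH.Adj x y ∧ tu x = e i)) →
      ((Kk j).Adj x y ∨ (M1 j).Adj x y ∨ US UH c0 tu wv (e1 j) x y ∨
        US UH c0 tu wv (e1 j) y x) → e i = e1 j := by
    intro i j h h'
    have t1 := typ_e hH hU hN hP h
    have t2 := typ_e1 hU hL hE h'
    clear h h'
    rcases t1 with ⟨h, a1, a2, a3, a4, a5⟩ | ⟨h, a1, a2, a3, a4, a5, a6⟩ | ⟨h, a1, a2, a3, a4⟩ |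
      ⟨h, a1, a2, a3, a4⟩ | ⟨h, a1, a2, a3⟩ <;>
    rcases t2 with ⟨h', b1, b2, b3, b4, b5⟩ | ⟨h', b1, b2, b3, b4, b5⟩ | ⟨h', b1, b2⟩ |
      ⟨h', b1, b2, b3, b4⟩
    · exact absurd h (hL.new j _ _ h' i)
    · exact absurd b3 a5
    · exact absurd b1 a1
    · exact absurd b2 a2
    · exact absurd (hP.le _ _ _ h).1 b4
    · exact absurd h (hE.new j _ _ h' i)
    · exact absurd b1 a1
    · exact absurd b2 a2
    · exact absurd a1 b1
    · exact absurd a1 b1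
    · exact US_col hU (UHe rfl) (UHe1 rfl) h h'
    · exact absurd a1 b1
    · exact absurd a2 b2
    · exact absurd a2 b2
    · exact absurd b1 a1
    · exact US_col hU (UHe rfl) (UHe1 rfl) h h'
    · exact absurd a2 b1
    · exact absurd a2 b1
    · exact absurd a3 b2
    · exact absurd a2 b1
  rcases h with ⟨i, rfl, h⟩ | ⟨j, rfl, h⟩ <;> rcases h' with ⟨i', rfl, h'⟩ | ⟨j', rfl, h'⟩
  · by_contra hne
    have hii : i ≠ i' := fun h0 => hne (by rw [h0])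
    have t1 := typ_e hH hU hN hP h
    have t2 := typ_e hH hU hN hP h'
    clear h h'
    rcases t1 with ⟨h, a1, a2, a3, a4, a5⟩ | ⟨h, a1, a2, a3, a4, a5, a6⟩ | ⟨h, a1, a2, a3, a4⟩ |
      ⟨h, a1, a2, a3, a4⟩ | ⟨h, a1, a2, a3⟩ <;>
    rcases t2 with ⟨h', b1, b2, b3, b4, b5⟩ | ⟨h', b1, b2, b3, b4, b5, b6⟩ |
      ⟨h', b1, b2, b3, b4⟩ | ⟨h', b1, b2, b3, b4⟩ | ⟨h', b1, b2, b3⟩
    · exact hN.dis i i' hii _ _ h h'
    · exact a5 b5
    · exact a1 b1
    · exact a2 b2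
    · exact a1 b2
    · exact b5 a5
    · exact hP.dis i i' hii _ _ h h'
    · exact a1 b1
    · exact a2 b2
    · exact a1 b2
    · exact b1 a1
    · exact b1 a1
    · exact hne (US_col hU (UHe rfl) (UHe rfl) h h')
    · exact b1 a1
    · exact a2 b3
    · exact b2 a2
    · exact b2 a2
    · exact a1 b1
    · exact hne (US_col hU (UHe rfl) (UHe rfl) h h')
    · exact a1 b2
    · exact b1 a2
    · exact b1 a2
    · exact b2 a3
    · exact b1 a2
    · exact hne (by rw [← a1, ← b1])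
  · exact key h h'
  · exact (key h' h).symm
  · by_contra hne
    have hjj : j ≠ j' := fun h0 => hne (by rw [h0])
    have t1 := typ_e1 hU hL hE h
    have t2 := typ_e1 hU hL hE h'
    clear h h'
    rcases t1 with ⟨h, a1, a2, a3, a4, a5⟩ | ⟨h, a1, a2, a3, a4, a5⟩ | ⟨h, a1, a2⟩ |
      ⟨h, a1, a2, a3, a4⟩ <;>
    rcases t2 with ⟨h', b1, b2, b3, b4, b5⟩ | ⟨h', b1, b2, b3, b4, b5⟩ | ⟨h', b1, b2⟩ |
      ⟨h', b1, b2, b3, b4⟩
    · exact hL.dis j j' hjj _ _ h h'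
    · exact a4 (hE.le _ _ _ h').1
    · exact a1 b1
    · exact a2 b2
    · exact b4 (hE.le _ _ _ h).1
    · exact hE.dis j j' hjj _ _ h h'
    · exact a1 b1
    · exact a2 b2
    · exact b1 a1
    · exact b1 a1
    · exact hne (US_col hU (UHe1 rfl) (UHe1 rfl) h h')
    · exact b1 a1
    · exact b2 a2
    · exact b2 a2
    · exact a1 b1
    · exact hne (US_col hU (UHe1 rfl) (UHe1 rfl) h h')

/-- the colour of an edge is not the colour of its ends -/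
theorem MA_c (hH : HPre G UH c0 EH tu) (he : Function.Injective e) (hee : ∀ x y, e x ≠ e1 y)
    (hC : VCol G UH c0 lab e pal c)
    (hU : UPar G d δ UH c0 tu lab e e1 c wv)
    (hN : NDec G UH lab Nd) (hP : P0R g G d UH c0 tu lab e c wv Nd M O)
    (hL : Lft G UH lab Nd Kk) (hE : PeR G UH c0 tu lab e1 wv Kk M O M1 O1) {b : Fin k}
    {x y : V} (h : MA UH c0 tu EH e e1 wv Nd M Kk M1 b x y) : c x ≠ b := by
  have hcell : ∀ {i : Ix m w}, x ∉ UH → (lab x).1 ∉ c3 i.1 i.2.1 → c x ≠ e i := by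
    intro i hx hx3 hxc
    obtain ⟨p, hp, _⟩ := hC.cP x hx
    rw [hxc] at hp
    have h1 := he hp
    apply hx3
    rw [mem_c3, h1]
    exact Or.inl rfl
  rcases h with ⟨i, rfl, h⟩ | ⟨j, rfl, h⟩
  · rcases typ_e hH hU hN hP h with ⟨h, a1, a2, a3, a4, a5⟩ | ⟨h, a1, a2, a3, a4, a5, a6⟩ |
      ⟨h, a1, a2, a3, a4⟩ | ⟨h, a1, a2, a3, a4⟩ | ⟨h, a1, a2, a3⟩
    · exact hcell a1 a3
    · by_cases hx : (lab x).1 ∈ c3 i.1 i.2.1
      · exact a6 hx
      · exact hcell a1 hx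
    · rw [hC.cU x a1]
      exact a4.symm
    · exact (US_fact hU (UHe rfl) h).2.2
    · rw [hC.cU x a2, ← a1]
      exact (hH.ct x a2).symm
  · have hne : x ∉ UH → c x ≠ e1 j := by
      intro hx hxc
      obtain ⟨p, hp, _⟩ := hC.cP x hx
      rw [hxc] at hp
      exact hee _ _ hp.symm
    rcases typ_e1 hU hL hE h with ⟨h, a1, a2, a3, a4, a5⟩ | ⟨h, a1, a2, a3, a4, a5⟩ |
      ⟨h, a1, a2⟩ | ⟨h, a1, a2, a3, a4⟩
    · exact hne a1
    · exact hne a1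
    · rw [hC.cU x a1]
      exact h.2.1.symm
    · exact hne a1

/-- covering, vertices of `UH` -/
theorem cov_U (hH : HPre G UH c0 EH tu) (htu : ∀ u ∈ UH, tu u ∈ Set.range e) {b : Fin k}
    {x : V} (hx : x ∈ UH) (hb : b ∈ Set.range e ∨ b ∈ Set.range e1) (hbx : b ≠ c0 x) :
    ∃ y, MA UH c0 tu EH e e1 wv Nd M Kk M1 b x y := by
  by_cases hbt : b = tu x
  · obtain ⟨i, hi⟩ := htu x hx
    obtain ⟨y, hy⟩ := hH.cov x hx
    refine ⟨y, Or.inl ⟨i, by rw [hi, hbt], Or.inr (Or.inr (Or.inr (Or.inr ⟨hy, hbt.symm⟩)))⟩⟩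
  · have hUS : US UH c0 tu wv b x (wv x b) := ⟨hx, hbx, hbt, rfl⟩
    rcases hb with ⟨i, hi⟩ | ⟨j, hj⟩
    · exact ⟨_, Or.inl ⟨i, hi, Or.inr (Or.inr (Or.inl hUS))⟩⟩
    · exact ⟨_, Or.inr ⟨j, hj, Or.inr (Or.inr (Or.inl hUS))⟩⟩

/-- covering in the colours `e i` -/
theorem cov_e (hP : P0R g G d UH c0 tu lab e c wv Nd M O) {i : Ix m w} {x : V} (hx : x ∉ UH)
    (hxc : c x ≠ e i) (hxO : x ∉ O i) :
    ∃ y, MA UH c0 tu EH e e1 wv Nd M Kk M1 (e i) x y := by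
  by_cases hx3 : (lab x).1 ∈ c3 i.1 i.2.1
  · by_cases hxU : x ∈ UW UH c0 tu wv (e i)
    · obtain ⟨y, hy⟩ := mem_UW.mp hxU
      exact ⟨y, Or.inl ⟨i, rfl, Or.inr (Or.inr (Or.inr (Or.inl hy)))⟩⟩
    · obtain ⟨y, hy⟩ := hP.cov i x (mem_Ub.mpr (Or.inl ⟨hx, hx3, hxc, hxU⟩)) hxO
      exact ⟨y, Or.inl ⟨i, rfl, Or.inr (Or.inl (mem_nb.mp hy))⟩⟩
  · by_cases hxN : (nb (Nd i) x).Nonempty
    · obtain ⟨y, hy⟩ := hxN
      exact ⟨y, Or.inl ⟨i, rfl, Or.inl (mem_nb.mp hy)⟩⟩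
    · obtain ⟨y, hy⟩ := hP.cov i x (mem_Ub.mpr (Or.inr ⟨hx, hx3, hxN⟩)) hxO
      exact ⟨y, Or.inl ⟨i, rfl, Or.inr (Or.inl (mem_nb.mp hy))⟩⟩

/-- covering in the colours `e1 j` -/
theorem cov_e1 (hE : PeR G UH c0 tu lab e1 wv Kk M O M1 O1)
    {j : Fin (K1 + 1) × Fin (K1 + 1) × Fin w1} {x : V} (hx : x ∉ UH) (hxO : x ∉ O1 j) :
    ∃ y, MA UH c0 tu EH e e1 wv Nd M Kk M1 (e1 j) x y := by
  by_cases hxU : x ∈ UW UH c0 tu wv (e1 j)
  · obtain ⟨y, hy⟩ := mem_UW.mp hxU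
    exact ⟨y, Or.inr ⟨j, rfl, Or.inr (Or.inr (Or.inr hy))⟩⟩
  · by_cases hxN : (nb (Kk j) x).Nonempty
    · obtain ⟨y, hy⟩ := hxN
      exact ⟨y, Or.inr ⟨j, rfl, Or.inl (mem_nb.mp hy)⟩⟩
    · obtain ⟨y, hy⟩ := hE.cov j x hx hxU hxN hxO
      exact ⟨y, Or.inr ⟨j, rfl, Or.inr (Or.inl (mem_nb.mp hy))⟩⟩

end mats

end Pool.Agent.Work.MP_db9399_lc.helper6.ASM

namespace Pool.Agent.Work.MP_db9399_lc.helper6

open Finset Classical
open Pool.Agent.Work.MP_db9399_bg (mem_nb mem_c3 not_rs_of_inW inW LabP Lbl c3f c3 rs eR Ix NDec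
  VCol UW Rg Jk Ub HPre Vc Spr)
open Pool.Agent.Work.MP_db9399_all (nb)
open Pool.Agent.Work.MP_db9399_dn (NB IsMat Tot)
open ASM

universe u

theorem not_rs_val {l : ℕ} {x y : ZMod (2 * l + 1)} (h0 : (x.val + y.val) % (2 * l + 1) ≠ 0)
    (h1 : (x.val + y.val) % (2 * l + 1) ≠ 1 % (2 * l + 1)) : ¬ rs x y := by
  rintro (h | h)
  · have := congrArg ZMod.val h
    rw [ZMod.val_add, ZMod.val_zero] at this
    exact h0 this
  · have := congrArg ZMod.val h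
    rw [ZMod.val_add] at this
    refine h1 (this.trans ?_)
    have h2 := ZMod.val_natCast (2 * l + 1) 1
    rwa [Nat.cast_one] at h2

theorem not_rs_Y {l : ℕ} {x y : ZMod (2 * l + 1)} (hx : l + 2 ≤ x.val) (hy : l + 2 ≤ y.val) :
    ¬ rs x y := by
  have h1 := ZMod.val_lt x
  have h2 := ZMod.val_lt y
  have h3 : (x.val + y.val) % (2 * l + 1) = x.val + y.val - (2 * l + 1) := by
    rw [Nat.mod_eq_sub_mod (by omega), Nat.mod_eq_of_lt (by omega)]
  apply not_rs_val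
  · rw [h3]
    omega
  · rw [h3, Nat.mod_eq_of_lt (by omega)]
    omega

theorem not_rs_B {l m r K K1 : ℕ} {x : ZMod (2 * l + 1)} {t : Lbl l m r K K1}
    (hx : x.val = 0 ∨ x.val = l + 1) (hy : inM t) : ¬ rs x t.2.1 := by
  obtain ⟨h2, h3, h4⟩ := hy
  have h1 := ZMod.val_lt t.2.1
  rcases hx with hx | hx
  · have h5 : (x.val + t.2.1.val) % (2 * l + 1) = t.2.1.val := by
      rw [hx, zero_add, Nat.mod_eq_of_lt h1]
    apply not_rs_val
    · rw [h5]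
      omega
    · rw [h5, Nat.mod_eq_of_lt (by omega)]
      omega
  · by_cases h6 : l + 2 ≤ t.2.1.val
    · have h5 : (x.val + t.2.1.val) % (2 * l + 1) = l + 1 + t.2.1.val - (2 * l + 1) := by
        rw [hx, Nat.mod_eq_sub_mod (by omega), Nat.mod_eq_of_lt (by omega)]
      apply not_rs_val
      · rw [h5]
        omega
      · rw [h5, Nat.mod_eq_of_lt (by omega)]
        omega
    · have h5 : (x.val + t.2.1.val) % (2 * l + 1) = l + 1 + t.2.1.val := by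
        rw [hx, Nat.mod_eq_of_lt (by omega)]
      apply not_rs_val
      · rw [h5]
        omega
      · rw [h5, Nat.mod_eq_of_lt (by omega)]
        omega

theorem stmt_ASM : Stmt_ASM.{u} := by
  intro V _ l m r K K1 g δ G d k w w1 UH c0 EH tu lab e e1 pal c wv Nd M O Kk M1 O1 hl hdeg hdk hH
    he he1 hee hc0 htu hC hU hN hP hL hE
  have hpal : ∀ b, b ∈ univ.filter (fun b => b ∈ Set.range e ∨ b ∈ Set.range e1) ↔
      (b ∈ Set.range e ∨ b ∈ Set.range e1) := by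
    intro b
    simp only [Finset.mem_filter, Finset.mem_univ, true_and]
  have hadj : ∀ x y, x ∉ UH → y ∉ UH → G.Adj x y → ¬ rs (lab x).2.1 (lab y).2.1 →
      ∃ b, MA UH c0 tu EH e e1 wv Nd M Kk M1 b x y := by
    intro x y hx hy hxy hr
    rcases hL.all x y hx hy hxy (fun h => hr h.2.2.2.2) with ⟨i, hi⟩ | ⟨j, hj⟩
    · exact ⟨e i, Or.inl ⟨i, rfl, Or.inl hi⟩⟩
    · exact ⟨e1 j, Or.inr ⟨j, rfl, Or.inl hj⟩⟩
  suffices hsuff : ∃ t : V → V → Fin k, Tot G c t ∧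
      ∀ b v w, MA UH c0 tu EH e e1 wv Nd M Kk M1 b v w → t v w = b by
    obtain ⟨t, ht, hM⟩ := hsuff
    refine ⟨t, ht, ?_⟩
    intro x y hxy
    obtain ⟨i, hi⟩ := htu x (hH.EU _ _ hxy)
    exact hM (tu x) x y (Or.inl ⟨i, hi, Or.inr (Or.inr (Or.inr (Or.inr ⟨hxy, rfl⟩)))⟩)
  refine core_asm G c
    (univ.filter (fun b => b ∈ Set.range e ∨ b ∈ Set.range e1))
    (univ.filter (fun x => x ∉ UH ∧ inM (lab x)))
    (univ.filter (fun x => x ∉ UH ∧ inW (lab x)))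
    (univ.filter (fun x => x ∉ UH ∧ l + 2 ≤ (lab x).2.1.val))
    (fun b => { Adj := MA UH c0 tu EH e e1 wv Nd M Kk M1 b
                symm := ⟨fun x y h => MA_symm hH h⟩
                loopless := ⟨fun x h => G.loopless.irrefl x (MA_le hH hU hN hP hL hE h)⟩ })
    hdeg hdk hC.adj ?_ ?_ ?_ ?_ ?_ ?_ ?_ ?_ ?_ ?_ ?_ ?_
  · intro x
    rw [hpal]
    by_cases hx : x ∈ UH
    · rw [hC.cU x hx]
      exact Or.inl (hc0 x hx)
    · obtain ⟨p, hp, _⟩ := hC.cP x hx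
      exact Or.inl ⟨_, hp.symm⟩
  · intro b x y h
    exact MA_le hH hU hN hP hL hE h
  · intro b x y h
    rw [hpal]
    rcases h with ⟨i, hi, _⟩ | ⟨j, hj, _⟩
    · exact Or.inl ⟨i, hi⟩
    · exact Or.inr ⟨j, hj⟩
  · intro b x
    rw [Finset.card_le_one]
    intro y hy z hz
    have hy' : MA UH c0 tu EH e e1 wv Nd M Kk M1 b x y := mem_nb.mp hy
    have hz' : MA UH c0 tu EH e e1 wv Nd M Kk M1 b x z := mem_nb.mp hz
    rcases hy' with ⟨i, hi, h⟩ | ⟨j, hj, h⟩ <;> rcases hz' with ⟨i', hi', h'⟩ | ⟨j', hj', h'⟩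
    · have hii : i' = i := he (hi'.trans hi.symm)
      subst hii
      subst hi
      exact uniq_e hH hU hN hP h h'
    · exact absurd (hi.trans hj'.symm) (hee _ _)
    · exact absurd (hi'.trans hj.symm) (hee _ _)
    · have hjj : j' = j := he1 (hj'.trans hj.symm)
      subst hjj
      subst hj
      exact uniq_e1 hU hL hE h h'
  · intro b b' hne x y h h'
    exact hne (MA_col hH hU hN hP hL hE h h')
  · intro b x y h
    exact MA_c hH he hee hC hU hN hP hL hE h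
  · intro x hx b hb hbc
    rw [hpal] at hb
    have hcov : ∃ y, MA UH c0 tu EH e e1 wv Nd M Kk M1 b x y := by
      by_cases hxU : x ∈ UH
      · exact cov_U hH htu hxU hb (by rw [← hC.cU x hxU]; exact hbc)
      · have hxW : ¬ inM (lab x) := by
          intro h0
          exact hx (Finset.mem_filter.mpr ⟨Finset.mem_univ _, hxU, h0⟩)
        rcases hb with ⟨i, rfl⟩ | ⟨j, rfl⟩
        · exact cov_e hP hxU hbc.symm (fun h0 => hxW (hP.OU i x h0).2.2)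
        · exact cov_e1 hE hxU (fun h0 => hxW (hE.OW j x h0).2)
    obtain ⟨y, hy⟩ := hcov
    exact ⟨y, mem_nb.mpr hy⟩
  · intro x hx
    have hxU : x ∉ UH := (Finset.mem_filter.mp hx).2.1
    by_cases h0 : ∃ i, x ∈ O i
    · obtain ⟨i0, hi0⟩ := h0
      refine ⟨e i0, ?_⟩
      intro b hb hbc hb0
      rw [hpal] at hb
      have hcov : ∃ y, MA UH c0 tu EH e e1 wv Nd M Kk M1 b x y := by
        rcases hb with ⟨i, rfl⟩ | ⟨j, rfl⟩
        · refine cov_e hP hxU hbc.symm (fun h1 => ?_)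
          have hne : i0 ≠ i := fun h2 => hb0 (by rw [h2])
          exact Finset.disjoint_left.mp (hP.Od i0 i hne) hi0 h1
        · exact cov_e1 hE hxU (fun h1 => Finset.disjoint_left.mp (hE.Od j i0) h1 hi0)
      obtain ⟨y, hy⟩ := hcov
      exact ⟨y, mem_nb.mpr hy⟩
    · push Not at h0
      by_cases h2 : ∃ j, x ∈ O1 j
      · obtain ⟨j0, hj0⟩ := h2
        refine ⟨e1 j0, ?_⟩
        intro b hb hbc hb0
        rw [hpal] at hb
        have hcov : ∃ y, MA UH c0 tu EH e e1 wv Nd M Kk M1 b x y := by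
          rcases hb with ⟨i, rfl⟩ | ⟨j, rfl⟩
          · exact cov_e hP hxU hbc.symm (h0 i)
          · refine cov_e1 hE hxU (fun h1 => ?_)
            have hne : j0 ≠ j := fun h2 => hb0 (by rw [h2])
            exact Finset.disjoint_left.mp (hE.O1d j0 j hne) hj0 h1
        obtain ⟨y, hy⟩ := hcov
        exact ⟨y, mem_nb.mpr hy⟩
      · push Not at h2
        refine ⟨c x, ?_⟩
        intro b hb hbc _
        rw [hpal] at hb
        have hcov : ∃ y, MA UH c0 tu EH e e1 wv Nd M Kk M1 b x y := by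
          rcases hb with ⟨i, rfl⟩ | ⟨j, rfl⟩
          · exact cov_e hP hxU hbc.symm (h0 i)
          · exact cov_e1 hE hxU (h2 j)
        obtain ⟨y, hy⟩ := hcov
        exact ⟨y, mem_nb.mpr hy⟩
  · rw [Finset.disjoint_left]
    intro x hx hy
    have hx1 := (Finset.mem_filter.mp hx).2.2.2
    have hy1 := (Finset.mem_filter.mp hy).2.2
    omega
  · intro x hx y hy hxy
    have hx1 := (Finset.mem_filter.mp hx).2
    have hy1 := (Finset.mem_filter.mp hy).2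
    refine hadj x y hx1.1 hy1.1 hxy ?_
    exact not_rs_of_inW hx1.2 hy1.2
  · intro x hx y hy hxy
    have hx1 := (Finset.mem_filter.mp hx).2
    have hy1 := (Finset.mem_filter.mp hy).2
    refine hadj x y hx1.1 hy1.1 hxy ?_
    exact not_rs_Y hx1.2 hy1.2
  · intro x y hxy hxX hxY hy
    have hy1 := (Finset.mem_filter.mp hy).2
    by_cases hxU : x ∈ UH
    · obtain ⟨i, h1, h2, h3⟩ := hU.sat x hxU y hxy hy1.1 hy1.2
      exact ⟨e i, Or.inl ⟨i, rfl, Or.inr (Or.inr (Or.inl ⟨hxU, h1, h2, h3⟩))⟩⟩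
    · refine hadj x y hxU hy1.1 hxy ?_
      have hx1 : ¬ inW (lab x) := fun h0 => hxX (Finset.mem_filter.mpr ⟨Finset.mem_univ _, hxU, h0⟩)
      have hx2 : ¬ (l + 2 ≤ (lab x).2.1.val) := fun h0 =>
        hxY (Finset.mem_filter.mpr ⟨Finset.mem_univ _, hxU, h0⟩)
      refine not_rs_B ?_ hy1.2
      unfold inW at hx1
      omega

end Pool.Agent.Work.MP_db9399_lc.helper6
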